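import Mathlib

namespace Pool.Agent.Results.MP_664517_co.Finite

open Finset

/-- total domination number -/
noncomputable def gammaT {n : ℕ} (G : SimpleGraph (Fin n)) : ℕ :=
  sInf {k | ∃ S : Finset (Fin n), S.card = k ∧ ∀ v, ∃ u ∈ S, G.Adj v u}

/-- 3-total-domination edge-critical -/
def EC {n : ℕ} (G : SimpleGraph (Fin n)) : Prop :=
  (∀ v, ∃ u, G.Adj v u) ∧ gammaT G = 3 ∧
    ∀ u v, u ≠ v → ¬ G.Adj u v → gammaT (G ⊔ SimpleGraph.edge u v) < 3

open Classical in
noncomputable def free {V ι : Type} (R : ι → SimpleGraph V) (U : Finset V) : Finset (V × V) :=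
  (U ×ˢ U).filter (fun x => ∀ j, ¬ (R j).Adj x.1 x.2)

lemma dens (k s : ℕ) {V ι : Type} [Fintype ι] [Nonempty ι] (hk : Fintype.card ι ≤ k)
    (R : ι → SimpleGraph V) : ∀ (q : ι → ℕ) (U : Finset V), ∑ j, q j ≤ s →
      (∀ j, ∀ t ⊆ U, (R j).IsClique t → t.card < q j) →
      U.card ^ 2 ≤ (4 * k ^ 2) ^ s * (free R U).card := by
  classical
  have hk1 : 1 ≤ k := le_trans Fintype.card_pos hk
  induction s with
  | zero =>
    intro q U hq h
    obtain ⟨j⟩ := ‹Nonempty ι›
    have h1 := h j ∅ (empty_subset _) (by simp)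
    have h2 : q j ≤ ∑ j, q j := single_le_sum (fun i _ => Nat.zero_le (q i)) (mem_univ j)
    omega
  | succ s ih =>
    intro q U hq h
    by_cases hc : ∀ a ∈ U, U.card ≤ 2 * (U.filter (fun b => ∀ j, ¬ (R j).Adj a b)).card
    · have e : (free R U).card = ∑ a ∈ U, (U.filter (fun b => ∀ j, ¬ (R j).Adj a b)).card := by
        unfold free
        rw [card_filter, sum_product]
        refine sum_congr rfl (fun a _ => ?_)
        rw [card_filter]
        refine sum_congr rfl (fun b _ => ?_)
        congr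
      have h1 := sum_le_sum hc
      rw [← mul_sum, ← e, sum_const, smul_eq_mul] at h1
      have h2 : 2 ≤ (4 * k ^ 2) ^ (s + 1) := by
        have : 1 ≤ k ^ 2 := Nat.one_le_pow _ _ hk1
        have h3 : 1 ≤ (4 * k ^ 2) ^ s := Nat.one_le_pow _ _ (by omega)
        rw [pow_succ]; nlinarith
      nlinarith
    · push Not at hc
      obtain ⟨a, ha, hc⟩ := hc
      have h1 := card_filter_add_card_filter_not (s := U) (fun b => ∀ j, ¬ (R j).Adj a b)
      obtain ⟨j, -, hj⟩ := exists_max_image univ (fun j => (U.filter ((R j).Adj a)).card)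
        univ_nonempty
      set U' := U.filter ((R j).Adj a) with hU'
      have h2 : (U.filter (fun b => ¬ ∀ j, ¬ (R j).Adj a b)).card ≤ k * U'.card := by
        calc _ ≤ (univ.biUnion (fun i => U.filter ((R i).Adj a))).card := by
              apply card_le_card
              intro b hb
              rw [mem_filter] at hb
              obtain ⟨hb, hb2⟩ := hb
              push Not at hb2
              obtain ⟨i, hi⟩ := hb2
              exact mem_biUnion.2 ⟨i, mem_univ _, mem_filter.2 ⟨hb, hi⟩⟩
          _ ≤ (univ : Finset ι).card * U'.card :=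
              card_biUnion_le_card_mul _ _ _ (fun i hi => hj i hi)
          _ ≤ _ := Nat.mul_le_mul_right _ hk
      have hq1 : 0 < q j := lt_of_le_of_lt (Nat.zero_le _) (h j ∅ (empty_subset _) (by simp))
      have h3 := ih (Function.update q j (q j - 1)) U' (by
        rw [sum_update_of_mem (mem_univ j)]
        rw [← add_sum_erase _ _ (mem_univ j), ← sdiff_singleton_eq_erase] at hq
        omega) (by
        intro i t ht hcl
        by_cases hij : i = j
        · subst hij
          have hat : a ∉ t := fun h4 => (R i).irrefl (mem_filter.1 (ht h4)).2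
          have := h i (insert a t) (insert_subset ha (ht.trans (filter_subset _ _))) (by
            rw [coe_insert]
            exact hcl.insert (fun b hb _ => (mem_filter.1 (ht hb)).2))
          rw [card_insert_of_notMem hat] at this
          simp only [Function.update_self]
          omega
        · rw [Function.update_of_ne hij]
          exact h i t (ht.trans (filter_subset _ _)) hcl)
      have h4 : (free R U').card ≤ (free R U).card := by
        apply card_le_card
        intro x hx
        unfold free at hx ⊢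
        simp only [mem_filter, mem_product, hU'] at hx ⊢
        exact ⟨⟨hx.1.1.1, hx.1.2.1⟩, hx.2⟩
      have h5 : U.card ≤ 2 * k * U'.card := by nlinarith
      calc U.card ^ 2 ≤ (2 * k * U'.card) ^ 2 := Nat.pow_le_pow_left h5 2
        _ = 4 * k ^ 2 * U'.card ^ 2 := by ring
        _ ≤ 4 * k ^ 2 * ((4 * k ^ 2) ^ s * (free R U).card) :=
            Nat.mul_le_mul_left _ (h3.trans (Nat.mul_le_mul_left _ h4))
        _ = _ := by ring

def Wit {n : ℕ} (G : SimpleGraph (Fin n)) (a b w : Fin n) : Prop :=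
  a ≠ b ∧ ¬ G.Adj a b ∧ ¬ G.Adj w b ∧ ∀ z, z ≠ b → G.Adj z a ∨ G.Adj z w

def E1 {n : ℕ} (G : SimpleGraph (Fin n)) : SimpleGraph (Fin n) where
  Adj a b := a ≠ b ∧ ¬ G.Adj a b ∧ ∀ z, z = a ∨ z = b ∨ G.Adj z a ∨ G.Adj z b
  symm := ⟨fun a b h => ⟨h.1.symm, fun h1 => h.2.1 h1.symm, fun z => by
    have := h.2.2 z; tauto⟩⟩
  loopless := ⟨fun _ h => h.1 rfl⟩

lemma crit {n : ℕ} (G : SimpleGraph (Fin n)) (h : EC G) (u v : Fin n) (h1 : u ≠ v)
    (h2 : ¬ G.Adj u v) : (E1 G).Adj u v ∨ (∃ w, Wit G u v w) ∨ ∃ w, Wit G v u w := by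
  classical
  have key : ∀ (a b : Fin n) (S : Finset (Fin n)), a ≠ b → ¬ G.Adj a b → S.card < 3 → a ∈ S →
      (∀ x ∈ S, ¬ G.Adj b x) →
      (∀ z, ∃ x ∈ S, G.Adj z x ∨ ((z = a ∧ x = b ∨ z = b ∧ x = a) ∧ z ≠ x)) →
      (E1 G).Adj a b ∨ ∃ w, Wit G a b w := by
    intro a b S hab hn hS ha hb hd
    obtain ⟨w, hw, hw2⟩ := hd a
    have hwa : w ≠ a := by
      rintro rfl
      rcases hw2 with h3 | h3
      · exact G.irrefl h3
      · exact h3.2 rfl
    have hall : ∀ x ∈ S, x = a ∨ x = w := by
      intro x hx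
      by_contra hc
      push Not at hc
      have : ({a, w, x} : Finset (Fin n)) ⊆ S := by
        intro y hy
        simp only [mem_insert, mem_singleton] at hy
        rcases hy with rfl | rfl | rfl <;> assumption
      have h4 := card_le_card this
      rw [card_eq_three.2 ⟨a, w, x, hwa.symm, hc.1.symm, hc.2.symm, rfl⟩] at h4
      omega
    by_cases hwb : w = b
    · left
      refine ⟨hab, hn, fun z => ?_⟩
      obtain ⟨x, hx, h3⟩ := hd z
      rcases hall x hx with h4 | h4 <;> subst h4 <;> [skip; subst hwb] <;> tauto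
    · right
      refine ⟨w, hab, hn, fun h3 => hb w hw h3.symm, fun z hz => ?_⟩
      obtain ⟨x, hx, h3⟩ := hd z
      rcases hall x hx with h4 | h4 <;> subst h4 <;> tauto
  have ne : {k | ∃ S : Finset (Fin n), S.card = k ∧
      ∀ z, ∃ x ∈ S, (G ⊔ SimpleGraph.edge u v).Adj z x}.Nonempty := by
    refine ⟨_, univ, rfl, fun z => ?_⟩
    obtain ⟨x, hx⟩ := h.1 z
    exact ⟨x, mem_univ _, Or.inl hx⟩
  obtain ⟨S, hS, hd⟩ := Nat.sInf_mem ne
  have h3 : S.card < 3 := by rw [hS]; exact h.2.2 u v h1 h2
  simp only [SimpleGraph.sup_adj, SimpleGraph.edge_adj] at hd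
  have h4 : ¬ ∀ z, ∃ x ∈ S, G.Adj z x := by
    intro h5
    have : gammaT G ≤ S.card := Nat.sInf_le ⟨S, rfl, h5⟩
    have := h.2.1
    omega
  push Not at h4
  obtain ⟨z, hz⟩ := h4
  obtain ⟨x, hx, h5⟩ := hd z
  rcases h5 with h5 | ⟨⟨rfl, rfl⟩ | ⟨rfl, rfl⟩, -⟩
  · exact absurd h5 (hz x hx)
  · rcases key x z S h1.symm (fun h6 => h2 h6.symm) h3 hx hz (fun y => by
      obtain ⟨t, ht, h7⟩ := hd y
      exact ⟨t, ht, by tauto⟩) with h6 | h6
    · exact Or.inl h6.symm
    · exact Or.inr (Or.inr h6)
  · rcases key x z S h1 h2 h3 hx hz hd with h6 | h6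
    · exact Or.inl h6
    · exact Or.inr (Or.inl h6)

lemma iterate (p : ℕ) (hp : 3 ≤ p) (i : ℕ) : ∃ C : ℕ, ∀ (n : ℕ) (G : SimpleGraph (Fin n)),
    EC G → G.CliqueFree p → n ≤ C ∨ ∃ (W U : Finset (Fin n)), G.IsClique W ∧ W.card = i ∧
      n ≤ C * U.card ∧ ∀ w ∈ W, ∀ a ∈ U, ∃ b, Wit G a b w := by
  classical
  induction i with
  | zero => exact ⟨1, fun n G _ _ => Or.inr ⟨∅, univ, by simp, rfl, by simp, by simp⟩⟩
  | succ i ih =>
    obtain ⟨C, hC⟩ := ih
    set D := (4 * (i + 2) ^ 2) ^ ((i + 2) * p) with hD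
    have hD1 : 1 ≤ D := Nat.one_le_pow _ _ (by positivity)
    refine ⟨C * D + 2 * D * C * C, fun n G hG hK => ?_⟩
    rcases hC n G hG hK with h | ⟨W, U, hW, hWc, hU, hw⟩
    · left
      have := Nat.mul_le_mul_left C hD1
      exact h.trans (le_trans (by omega) (Nat.le_add_right (C * D) _))
    rcases Nat.eq_zero_or_pos n with hn | hn
    · left; omega
    have : Nonempty (Fin n) := ⟨⟨0, hn⟩⟩
    choose! φ hφ using hw
    have hlt : ∀ t : Finset (Fin n), G.IsClique t → t.card < p := by
      intro t ht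
      by_contra hc
      obtain ⟨t', h1, h2⟩ := exists_subset_card_eq (not_lt.1 hc)
      exact hK t' ⟨ht.subset h1, h2⟩
    let R : Option (Option W) → SimpleGraph (Fin n) := fun o =>
      match o with
      | none => G
      | some none => E1 G
      | some (some w) => G.comap (φ w)
    have hd := dens (i + 2) ((i + 2) * p) (by simp [hWc]) R (fun _ => p) U (by simp [hWc]) (by
      rintro (_ | _ | w) t _ ht
      · exact hlt t ht
      · by_contra hc
        obtain ⟨t', h1, h2⟩ := exists_subset_card_eq (show 3 ≤ t.card by omega)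
        obtain ⟨a, b, c, hab, hac, hbc, rfl⟩ := card_eq_three.1 h2
        have k1 : (E1 G).Adj a b := ht (h1 (by simp)) (h1 (by simp)) hab
        have k2 : (E1 G).Adj c a := ht (h1 (by simp)) (h1 (by simp)) hac.symm
        have k3 : (E1 G).Adj c b := ht (h1 (by simp)) (h1 (by simp)) hbc.symm
        have := k1.2.2 c
        have := k2.1; have := k2.2.1; have := k3.1; have := k3.2.1
        tauto
      · have hinj : Set.InjOn (φ w) t := by
          intro a ha b hb hab
          by_contra hne
          exact (show G.Adj (φ w a) (φ w b) from ht ha hb hne).ne hab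
        rw [← card_image_of_injOn hinj]
        apply hlt
        intro x hx y hy hxy
        simp only [coe_image, Set.mem_image] at hx hy
        obtain ⟨a, ha, rfl⟩ := hx
        obtain ⟨b, hb, rfl⟩ := hy
        exact ht ha hb (fun h => hxy (by rw [h])))
    rw [← hD] at hd
    let T : Fin n → Finset (Fin n) := fun w =>
      U.filter (fun a => (∃ b, Wit G a b w) ∧ ∀ x ∈ W, G.Adj w x)
    obtain ⟨w0, -, hw0⟩ := exists_max_image univ (fun w => (T w).card) univ_nonempty
    let P : Finset (Fin n × Fin n) := univ.filter (fun x => ∃ w, Wit G x.1 x.2 w ∧ x.1 ∈ T w)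
    have good : ∀ a ∈ U, ∀ b ∈ U, (∀ w ∈ W, ¬ G.Adj (φ w a) (φ w b)) → ∀ w, Wit G a b w →
        (a, b) ∈ P := by
      intro a ha b hb hf w hwit
      refine mem_filter.2 ⟨mem_univ _, w, hwit, mem_filter.2 ⟨ha, ⟨b, hwit⟩, fun x hx => ?_⟩⟩
      have k1 := hφ x hx a ha
      have k2 := hφ x hx b hb
      have k3 : φ x a ≠ b := by
        intro h
        rcases k2.2.2.2 b k2.1 with h1 | h1
        · exact G.irrefl h1
        · exact k1.2.2.1 (h ▸ h1.symm)
      have k4 : w ≠ φ x b := by
        rintro rfl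
        rcases hwit.2.2.2 _ k3 with h1 | h1
        · exact k1.2.1 h1.symm
        · exact hf x hx h1
      exact (k2.2.2.2 w k4).resolve_left hwit.2.2.1
    have hP : P.card ≤ n * (T w0).card := by
      have : P ⊆ univ.biUnion (fun w => P.filter (fun x => Wit G x.1 x.2 w ∧ x.1 ∈ T w)) := by
        intro x hx
        obtain ⟨w, hw⟩ := (mem_filter.1 hx).2
        exact mem_biUnion.2 ⟨w, mem_univ _, mem_filter.2 ⟨hx, hw⟩⟩
      refine (card_le_card this).trans ((card_biUnion_le_card_mul _ _ (T w0).card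
        (fun w _ => le_trans ?_ (hw0 w (mem_univ w)))).trans (by simp))
      refine card_le_card_of_injOn Prod.fst (fun x hx => (mem_filter.1 hx).2.2) ?_
      rintro ⟨a, b⟩ hx ⟨a', b'⟩ hy (rfl : a = a')
      have k1 : Wit G a b w := (mem_filter.1 hx).2.1
      have k2 : Wit G a b' w := (mem_filter.1 hy).2.1
      by_contra hne
      rcases k1.2.2.2 b' (fun h => hne (by rw [h])) with h | h
      · exact k2.2.1 h.symm
      · exact k2.2.2.1 h.symm
    have hF : (free R U).card ≤ U.card + (P.card + P.card) := by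
      have : free R U ⊆ U.image (fun a => (a, a)) ∪ (P ∪ P.image Prod.swap) := by
        rintro ⟨a, b⟩ hx
        unfold free at hx
        simp only [mem_filter, mem_product] at hx
        obtain ⟨⟨ha, hb⟩, hf⟩ := hx
        by_cases hab : a = b
        · exact mem_union_left _ (mem_image.2 ⟨a, ha, by rw [hab]⟩)
        · apply mem_union_right
          rcases crit G hG a b hab (hf none) with h | ⟨w, h⟩ | ⟨w, h⟩
          · exact absurd h (hf (some none))
          · exact mem_union_left _ (good a ha b hb (fun x hx => hf (some (some ⟨x, hx⟩))) w h)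
          · exact mem_union_right _ (mem_image.2 ⟨(b, a), good b hb a ha
              (fun x hx h1 => hf (some (some ⟨x, hx⟩)) h1.symm) w h, rfl⟩)
      refine (card_le_card this).trans ((card_union_le _ _).trans (add_le_add card_image_le
        ((card_union_le _ _).trans (add_le_add le_rfl card_image_le))))
    have hU0 : 0 < U.card := by
      rcases Nat.eq_zero_or_pos U.card with h | h
      · rw [h] at hU; omega
      · exact h
    have h1 : U.card ≤ D + 2 * D * C * (T w0).card := by
      have a1 : P.card ≤ C * U.card * (T w0).card := hP.trans (Nat.mul_le_mul_right _ hU)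
      have a2 : U.card * U.card ≤ (D + 2 * D * C * (T w0).card) * U.card := by
        calc U.card * U.card = U.card ^ 2 := by ring
          _ ≤ D * (U.card + (C * U.card * (T w0).card + C * U.card * (T w0).card)) :=
              hd.trans (Nat.mul_le_mul_left _ (hF.trans (by omega)))
          _ = _ := by ring
      exact Nat.le_of_mul_le_mul_right a2 hU0
    have h2 : n ≤ C * (D + 2 * D * C * (T w0).card) := hU.trans (Nat.mul_le_mul_left _ h1)
    rcases (T w0).eq_empty_or_nonempty with h | ⟨a, ha⟩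
    · left
      rw [h] at h2
      simp at h2
      nlinarith
    · right
      have hadj := (mem_filter.1 ha).2.2
      have hn' : w0 ∉ W := fun h => G.irrefl (hadj w0 h)
      have h3 : 1 ≤ (T w0).card := card_pos.2 ⟨a, ha⟩
      refine ⟨insert w0 W, T w0, ?_, by rw [card_insert_of_notMem hn', hWc], ?_, ?_⟩
      · rw [coe_insert]; exact hW.insert (fun b hb _ => hadj b hb)
      · nlinarith [Nat.mul_le_mul_left (C * D) h3]
      · intro w hw b hb
        rcases mem_insert.1 hw with rfl | hw
        · exact (mem_filter.1 hb).2.1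
        · exact ⟨_, hφ w hw b (mem_filter.1 hb).1⟩

theorem result (p : ℕ) (hp : 3 ≤ p) :
    {x : Σ n : ℕ, SimpleGraph (Fin n) | EC x.2 ∧ x.2.CliqueFree p}.Finite := by
  obtain ⟨C, hC⟩ := iterate p hp p
  refine ((Set.finite_Iic C).biUnion (fun n _ => Set.finite_range
    (fun G : SimpleGraph (Fin n) => (⟨n, G⟩ : Σ n : ℕ, SimpleGraph (Fin n))))).subset ?_
  rintro ⟨n, G⟩ ⟨h1, h2⟩
  rcases hC n G h1 h2 with h | ⟨W, -, hW, hc, -⟩
  · exact Set.mem_biUnion h ⟨G, rfl⟩
  · exact absurd ⟨hW, hc⟩ (h2 W)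

end Pool.Agent.Results.MP_664517_co.Finite
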